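import Pool.Agent.Run7.h161.CG.Cls

/-!
# Contracting groups, finitely presented covers and the Full Farrell–Jones Conjecture

For every contracting group `G` (a group with a faithful contracting recursion over a finite alphabet)
there is a finitely presented group `Γ` with a contracting recursion over the same alphabet and a
homomorphism to `G` compatible with the recursions, the kernel of which consists of the elements that
die, such that `G` is in every class `C` with the closure properties `Closed C` that contains `Γ`. All these
properties are known for the class of the groups which satisfy the Full Farrell–Jones Conjecture. So the
conjecture for all contracting groups, which are almost never finitely presented, follows from the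
conjecture for the finitely presented groups with a contracting recursion.

Proof. Let `M` be a finite symmetric self-similar set which contains almost all sections of each element,
and contains the sections of the products of two of its elements after `k` steps. `Γ` is generated by `M`,
with all the relations `a b = c` between three elements of `M`. The recursion of `G` lifts to `Γ`, and is
contracting, because the relations `(a b)|_v = c` hold in `Γ` as well. An element of the kernel has its
sections of some level in the lift of `M`, where the projection to `G` is injective, and dies. So the
subgroup of `G` generated by `M` is a directed colimit of subgroups of iterated wreath products of `Γ`, and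
`G` is an increasing union of subgroups of iterated wreath products of this subgroup.
-/

set_option autoImplicit false

namespace Pool.Agent.Results.MP_490288_al.FinitelyPresentedCovers

open Pool.Agent.Y462.SS (Closed Wr act Dies)
open Run7.h161.CG

/-- Let `φ` be a contracting recursion on a group `G`, over a finite alphabet `X`, such that `G` acts
faithfully on the words. There are a finitely presented group `Γ` with a contracting recursion `ψ` over
`X` and a homomorphism `f : Γ → G`, compatible with the recursions, whose kernel is the set of
the elements that die, such that `G` is in every class `C` with the properties `Closed C` that contains
`Γ`. -/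
theorem result (G X : Type) [Finite X] [Group G] (φ : G →* Wr X G) (hφ : Contracting φ)
    (hfaith : ∀ g : G, Triv φ g → g = 1) :
    ∃ (Γ : Type) (_ : Group Γ) (ψ : Γ →* Wr X Γ) (f : Γ →* G),
      Group.IsFinitelyPresented Γ ∧ Contracting ψ ∧
      (∀ (γ : Γ) (x : X), f ((ψ γ).s x) = (φ (f γ)).s x) ∧
      (∀ γ : Γ, (ψ γ).p = (φ (f γ)).p) ∧ (∀ γ : Γ, f γ = 1 ↔ Dies ψ γ) ∧
      ∀ C : ∀ (G : Type) [Group G], Prop, Closed C → C Γ → C G := by
  obtain ⟨M, k, hM⟩ := exists_nuc hφ
  exact ⟨Cov M, inferInstance, cψ hM, pr M, cov_fp hM.fin, cov_contracting hM hM.fin,
    pr_s hM, pr_p hM, fun γ => ⟨cov_dies hM, fun h => hfaith _ (cov_triv hM (triv_of_dies h))⟩,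
    fun C hC h => closed_of_cov C hC hM hfaith h⟩

end Pool.Agent.Results.MP_490288_al.FinitelyPresentedCovers
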